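import Mathlib

namespace Pool.Agent.Results.MP_b7f7f4_co.Block

open Finset

variable {n : ℕ}

def IsLatin (L : Fin n → Fin n → Fin n) : Prop :=
  (∀ x, Function.Bijective (L x)) ∧ ∀ y, Function.Bijective fun x => L x y

def IsWeight (L : Fin n → Fin n → Fin n) (k : ℤ) (θ : Fin n × Fin n → ℤ) : Prop :=
  (∀ x, ∑ y, θ (x, y) = k) ∧ (∀ y, ∑ x, θ (x, y) = k) ∧
    ∀ z, ∑ c with L c.1 c.2 = z, θ c = k

/-- Symbols used in block `(i, j)` when rows and columns are arranged by `ρ` and `γ`. -/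
def syms {N q : ℕ} (L : Fin n → Fin n → Fin n) (ρ γ : ZMod N × Fin q ≃ Fin n) (i j : ZMod N) :
    Finset (Fin n) :=
  univ.image fun c : Fin q × Fin q => L (ρ (i, c.1)) (γ (j, c.2))

/-- Block pattern of `ZMod N` with `q × q` blocks: each block uses `q` symbols (so is a latin
square), and two blocks use the same symbols iff their positions have the same sum. -/
def BlockPattern (L : Fin n → Fin n → Fin n) (N q : ℕ) : Prop :=
  ∃ ρ γ : ZMod N × Fin q ≃ Fin n, (∀ i j, (syms L ρ γ i j).card = q) ∧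
    ∀ i j i' j', syms L ρ γ i j = syms L ρ γ i' j' ↔ i + j = i' + j'

theorem arrange {N q : ℕ} (F : Fin n → ZMod N) (h : ∀ i, (univ.filter fun x => F x = i).card = q) :
    ∃ ρ : ZMod N × Fin q ≃ Fin n, ∀ i a, F (ρ (i, a)) = i :=
  ⟨((Equiv.sigmaEquivProd _ _).symm.trans (Equiv.sigmaCongrRight fun i =>
    (Fintype.equivFinOfCardEq ((Fintype.card_subtype _).trans (h i))).symm)).trans
      (Equiv.sigmaFiberEquiv F), fun i a =>
    ((Fintype.equivFinOfCardEq ((Fintype.card_subtype _).trans (h i))).symm a).2⟩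

theorem final {L : Fin n → Fin n → Fin n} (hL : IsLatin L) {N : ℕ} [NeZero N]
    (F G H : Fin n → ZMod N) (o : Fin n) (hF : F o = 0) (hG : G o = 0)
    (h : ∀ x y, H (L x y) = F x + G y) (hs : Function.Surjective H) (h0 : ∑ z, H z ≠ 0) :
    Even N ∧ ∃ q, Odd q ∧ BlockPattern L N q := by
  have cG : ∀ x i, (univ.filter fun y => G y = i).card =
      (univ.filter fun z => H z = F x + i).card := fun x i =>
    card_bijective (L x) (hL.1 x) fun y => by simp [h]
  have cF : ∀ i, (univ.filter fun x => F x = i).card = (univ.filter fun z => H z = i).card :=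
    fun i => card_bijective _ (hL.2 o) fun y => by simp [h, hG]
  set q := (univ.filter fun z => H z = 0).card with hq
  have cH : ∀ i, (univ.filter fun z => H z = i).card = q := fun i => by
    obtain ⟨z, rfl⟩ := hs i
    obtain ⟨x, rfl⟩ := (hL.2 o).2 z
    rw [h, hG, ← cG, cG o, hF, add_zero]
  have e1 : ∑ z, H z = q • ∑ i : ZMod N, i := by
    rw [← sum_fiberwise univ H, smul_sum]
    refine sum_congr rfl fun i _ => ?_
    rw [sum_congr rfl fun z hz => (mem_filter.1 hz).2, sum_const, cH]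
  have e2 : 2 • ∑ i : ZMod N, i = 0 := by
    have : ∑ i : ZMod N, -i = ∑ i : ZMod N, i := Equiv.sum_comp (Equiv.neg _) fun i => i
    rw [sum_neg_distrib] at this
    rw [two_smul]; linear_combination -this
  have oq : Odd q := by
    rcases Nat.even_or_odd q with ⟨k, hk⟩ | hq
    · exact absurd (by rw [e1, hk, ← two_mul, mul_comm, mul_smul, e2, smul_zero]) h0
    · exact hq
  refine ⟨?_, q, oq, ?_⟩
  · rcases Nat.even_or_odd N with hN | ⟨k, hk⟩
    · exact hN
    · refine absurd ?_ h0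
      have : N • ∑ i : ZMod N, i = 0 := by simp [nsmul_eq_mul]
      have e3 : (2 * k + 1) • ∑ i : ZMod N, i = 0 := hk ▸ this
      rw [add_smul, mul_comm, mul_smul, e2, smul_zero, zero_add, one_smul] at e3
      rw [e1, e3, smul_zero]
  obtain ⟨ρ, hρ⟩ := arrange F fun i => (cF i).trans (cH i)
  obtain ⟨γ, hγ⟩ := arrange G fun i => (cG o i).trans (cH _)
  have a : Fin q := ⟨0, oq.pos⟩
  have S : ∀ i j, syms L ρ γ i j = univ.filter fun z => H z = i + j := fun i j => by
    refine eq_of_subset_of_card_le (fun z hz => ?_) ?_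
    · obtain ⟨c, -, rfl⟩ := mem_image.1 hz
      simp [h, hρ, hγ]
    · rw [cH]
      refine (card_fin q).ge.trans (card_le_card_of_injOn (fun b => L (ρ (i, a)) (γ (j, b)))
        (fun b _ => mem_coe.2 (mem_image.2 ⟨(a, b), mem_univ _, rfl⟩)) fun b _ b' _ hb => ?_)
      exact (Prod.ext_iff.1 (γ.injective ((hL.1 _).1 hb))).2
  refine ⟨ρ, γ, fun i j => by rw [S, cH], fun i j i' j' => ⟨fun e => ?_, fun e => by rw [S, S, e]⟩⟩
  obtain ⟨z, hz⟩ := hs (i + j)
  have : z ∈ syms L ρ γ i' j' := by rw [← e, S]; simpa using hz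
  rw [S] at this
  exact hz.symm.trans (mem_filter.1 this).2

theorem mid {L : Fin n → Fin n → Fin n} (hL : IsLatin L) (f g h : Fin n → AddCircle (1 : ℚ))
    (e : ∀ x y, f x + g y + h (L x y) = 0) (h0 : ∑ x, f x + ∑ x, g x + ∑ x, h x ≠ 0) :
    ∃ m q, 1 ≤ m ∧ Odd q ∧ BlockPattern L (2 * m) q := by
  classical
  rcases isEmpty_or_nonempty (Fin n) with hn | ⟨⟨o⟩⟩
  · simp at h0
  let H : Fin n → AddCircle (1 : ℚ) := fun z => -h z - f o - g o
  have eH : ∀ x y, H (L x y) = (f x - f o) + (g y - g o) := fun x y => by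
    simp only [H]; linear_combination (norm := abel) -e x y
  have e1 : ∀ x, H (L x o) = f x - f o := fun x => by simp [eH]
  have e2 : ∀ y, H (L o y) = g y - g o := fun x => by simp [eH]
  let B : AddSubgroup (AddCircle (1 : ℚ)) :=
    { carrier := Set.range H
      add_mem' := by
        rintro _ _ ⟨z, rfl⟩ ⟨w, rfl⟩
        obtain ⟨x, rfl⟩ := (hL.2 o).2 z
        obtain ⟨y, rfl⟩ := (hL.1 o).2 w
        exact ⟨L x y, by rw [eH, e1, e2]⟩
      zero_mem' := ⟨L o o, by simp [e1]⟩
      neg_mem' := by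
        rintro _ ⟨z, rfl⟩
        obtain ⟨x, rfl⟩ := (hL.2 o).2 z
        obtain ⟨y, hy⟩ := (hL.1 x).2 (L o o)
        refine ⟨L o y, eq_neg_of_add_eq_zero_right ?_⟩
        rw [e1, e2, ← eH, hy, e1, sub_self] }
  haveI : Finite B := Set.finite_range H
  haveI := Fintype.ofFinite B
  have cyc : IsAddCyclic B := isAddCyclic_of_card_nsmul_eq_zero_le fun k hk => by
    have h1 := AddCircle.card_torsion_le_of_isSMulRegular (1 : ℚ) k hk.ne'
      (fun a b hab => by simpa [hk.ne'] using hab)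
    have h2 : (((univ.filter fun a : B => k • a = 0).image Subtype.val : Finset _) : Set _) ⊆
        {x : AddCircle (1 : ℚ) | k • x = 0} := by
      intro x hx
      obtain ⟨a, ha, rfl⟩ := mem_image.1 (mem_coe.1 hx)
      exact congrArg Subtype.val (mem_filter.1 ha).2
    have h3 := (Set.encard_le_encard h2).trans h1
    rw [Set.encard_coe_eq_coe_finsetCard, card_image_of_injective _ Subtype.val_injective] at h3
    exact_mod_cast h3
  let φ := (zmodAddCyclicAddEquiv cyc).symm
  haveI : NeZero (Nat.card B) := ⟨Nat.card_pos.ne'⟩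
  let H' : Fin n → B := fun z => ⟨H z, z, rfl⟩
  obtain ⟨⟨m, hm⟩, q, hq, hb⟩ := final hL (fun x => φ (H' (L x o))) (fun y => φ (H' (L o y)))
    (fun z => φ (H' z)) o
    (by rw [map_eq_zero_iff φ φ.injective]; exact Subtype.ext (by simp [H', e1]))
    (by rw [map_eq_zero_iff φ φ.injective]; exact Subtype.ext (by simp [H', e1]))
    (fun x y => by rw [← map_add]; exact congrArg φ (Subtype.ext (by simp [H', e1, e2, eH])))
    (φ.surjective.comp fun ⟨_, z, hz⟩ => ⟨z, Subtype.ext hz⟩) (by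
      rw [← map_sum, map_ne_zero_iff φ φ.injective]
      intro h1
      have h2 : ∑ z, H z = 0 := by simpa [H'] using congrArg Subtype.val h1
      have s1 : ∑ x, H (L x o) = 0 := ((hL.2 o).sum_comp H).trans h2
      have s2 : ∑ x, H (L o x) = 0 := ((hL.1 o).sum_comp H).trans h2
      simp only [e1, e2, sum_sub_distrib] at s1 s2
      simp only [H, sum_sub_distrib, sum_neg_distrib] at h2
      exact h0 (by linear_combination (norm := abel) s1 + s2 - h2))
  have := NeZero.ne (Nat.card B)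
  exact ⟨m, q, by omega, hq, by rw [two_mul, ← hm]; exact hb⟩

def M (L : Fin n → Fin n → Fin n) :
    (Fin n × Fin n → ℤ) →+ (Fin n → ℤ) × (Fin n → ℤ) × (Fin n → ℤ) where
  toFun θ := (fun x => ∑ y, θ (x, y), fun y => ∑ x, θ (x, y), fun z => ∑ c with L c.1 c.2 = z, θ c)
  map_zero' := by ext <;> simp
  map_add' a b := by ext <;> simp [sum_add_distrib]

theorem result (n : ℕ) (L : Fin n → Fin n → Fin n) (hL : IsLatin L)
    (h : ¬ ∃ k θ, Odd k ∧ IsWeight L k θ) :
    ∃ m q, 1 ≤ m ∧ Odd q ∧ BlockPattern L (2 * m) q := by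
  have hu : (QuotientAddGroup.mk' (M L).range (1, 1, 1)) ≠ 0 := by
    intro h1
    obtain ⟨θ, hθ⟩ := (QuotientAddGroup.eq_zero_iff _).1 h1
    exact h ⟨1, θ, odd_one, congrFun (congrArg (·.1) hθ), congrFun (congrArg (·.2.1) hθ),
      congrFun (congrArg (·.2.2) hθ)⟩
  obtain ⟨χ, hχ⟩ := CharacterModule.exists_character_apply_ne_zero_of_ne_zero hu
  let ψ : _ →+ AddCircle (1 : ℚ) := AddMonoidHom.comp χ (QuotientAddGroup.mk' (M L).range)
  refine mid hL (fun x => ψ (Pi.single x 1, 0, 0)) (fun x => ψ (0, Pi.single x 1, 0))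
    (fun x => ψ (0, 0, Pi.single x 1)) (fun x y => ?_) ?_
  · rw [← map_add, ← map_add]
    have : ψ (M L (Pi.single (x, y) 1)) = 0 := by
      have : QuotientAddGroup.mk' (M L).range (M L (Pi.single (x, y) 1)) = 0 :=
        (QuotientAddGroup.eq_zero_iff _).2 ⟨_, rfl⟩
      simp only [ψ, AddMonoidHom.comp_apply, this, map_zero]
    rw [← this]
    congr 1
    ext z <;> simp [M, Pi.single_apply, ite_and, eq_comm]
  · rw [← map_sum, ← map_sum, ← map_sum, ← map_add, ← map_add]
    convert hχ using 1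
    show ψ _ = ψ _
    congr 1
    ext z <;> simp [Prod.fst_sum, Prod.snd_sum, Pi.single_apply]

end Pool.Agent.Results.MP_b7f7f4_co.Block
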